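import Pool.Agent.H73.G.R8.Y119.MD.Main
import Pool.Agent.H73.G.R8.Y685.Stm2
import Pool.Agent.H73.G.R8.Y685.TauA

/-!
# Bounds near the cusp
-/

set_option autoImplicit false

open Filter UpperHalfPlane
open scoped Topology PeriodPair

namespace Pool.Agent.Y119.IC

open H667R3 Pool.Agent.W245.EB Pool.Agent.Y685 Pool.Agent.Y685.H2

/-- the constant of the strip -/
noncomputable def rho : ℝ := EisensteinSeries.r ⟨⟨1, 1⟩, one_pos⟩

lemma rho_pos : 0 < rho := EisensteinSeries.r_pos _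

lemma wx_lower {t : ℂ} (h1 : |t.re| ≤ 1) (h2 : 1 ≤ t.im) (x : Fin 2 → ℤ) :
    rho * ‖x‖ ≤ ‖wx x t‖ := by
  by_cases hx : x = 0
  · subst hx
    simp [wx]
  have ht : 0 < t.im := by linarith
  have h3 := EisensteinSeries.r_mul_max_le ⟨t, ht⟩ hx
  have h4 := EisensteinSeries.r_lower_bound_on_verticalStrip (z := ⟨t, ht⟩) one_pos
      (A := 1) (B := 1) ⟨h1, h2⟩
  exact (mul_le_mul_of_nonneg_right h4 (norm_nonneg _)).trans h3

lemma G_bound (k : ℕ) (hk : 3 ≤ k) : ∃ C : ℝ, ∀ t : ℂ, |t.re| ≤ 1 → 1 ≤ t.im →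
    ‖(LC t).G k‖ ≤ C := by
  have hs := (EisensteinSeries.summable_one_div_norm_rpow (k := (k : ℝ))
    (by exact_mod_cast hk)).mul_left ((rho⁻¹) ^ k)
  refine ⟨∑' x : Fin 2 → ℤ, (rho⁻¹) ^ k * ‖x‖ ^ (-(k : ℝ)), fun t h1 h2 => ?_⟩
  · have ht : 0 < t.im := by linarith
    rw [PeriodPair.G, ← (eqv ht).tsum_eq]
    refine tsum_of_norm_bounded hs.hasSum fun x => ?_
    rw [eqv_apply ht]
    by_cases hx : x = 0
    · subst hx
      have h0 : wx 0 t = 0 := by simp [wx]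
      have hk0 : k ≠ 0 := by omega
      rw [h0, zero_pow hk0, inv_zero, norm_zero]
      have := rho_pos
      positivity
    · have hx0 : 0 < ‖x‖ := norm_pos_iff.2 hx
      rw [norm_inv, norm_pow, Real.rpow_neg hx0.le, Real.rpow_natCast, inv_pow, ← mul_inv,
        ← mul_pow]
      apply inv_anti₀
      · have := rho_pos
        positivity
      · exact pow_le_pow_left₀ (mul_nonneg rho_pos.le hx0.le) (wx_lower h1 h2 x) k

lemma zeta_bound (z : ℂ) (hz : ∀ t : ℂ, 1 ≤ t.im → ∀ x, 1 / 2 ≤ ‖z - wx x t‖) :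
    ∃ C : ℝ, ∀ t : ℂ, |t.re| ≤ 1 → 1 ≤ t.im → ‖zeta (LC t) z‖ ≤ C := by
  classical
  have hρ0 := rho_pos
  set R : ℝ := ‖z‖ + 1 with hR
  have hR0 : 0 < R := by positivity
  set F : Set (Fin 2 → ℤ) := {x | ‖x‖ ≤ 2 * R / rho} with hF
  have hFfin : F.Finite := by
    have : F = Metric.closedBall (0 : Fin 2 → ℤ) (2 * R / rho) := by
      ext x
      simp [hF]
    rw [this]
    exact (isCompact_closedBall (0 : Fin 2 → ℤ) (2 * R / rho)).finite_of_discrete
  set u : (Fin 2 → ℤ) → ℝ := fun x => 2 * R ^ 2 * rho⁻¹ ^ 3 * ‖x‖ ^ (-3 : ℝ) +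
    F.indicator (fun _ => 2 + rho⁻¹ + R * (rho⁻¹) ^ 2) x with hu
  have hus : Summable u := by
    refine Summable.add ?_ ?_
    · exact (EisensteinSeries.summable_one_div_norm_rpow (k := 3) (by norm_num)).mul_left _
    · exact summable_of_hasFiniteSupport (hFfin.subset (Set.support_indicator_subset))
  refine ⟨∑' x, u x, fun t h1 h2 => ?_⟩
  have ht : 0 < t.im := by linarith
  rw [zeta_eq ht]
  unfold Zs
  refine tsum_of_norm_bounded hus.hasSum fun x => ?_
  rw [Set.indicator_of_mem (Set.mem_univ x)]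
  by_cases hxF : x ∈ F
  · simp only [hu]
    rw [Set.indicator_of_mem hxF]
    have h5 : 0 ≤ 2 * R ^ 2 * rho⁻¹ ^ 3 * ‖x‖ ^ (-3 : ℝ) := by positivity
    have h6 : ‖1 / (z - wx x t)‖ ≤ 2 := by
      rw [norm_div, norm_one, div_le_iff₀ (by linarith [hz t h2 x])]
      linarith [hz t h2 x]
    have h7 : ‖1 / wx x t‖ ≤ rho⁻¹ ∧ ‖z / wx x t ^ 2‖ ≤ R * (rho⁻¹) ^ 2 := by
      by_cases hx : x = 0
      · subst hx
        have h0 : wx 0 t = 0 := by simp [wx]
        rw [h0]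
        simp only [div_zero, norm_zero, ne_eq, OfNat.ofNat_ne_zero, not_false_eq_true, zero_pow]
        constructor <;> positivity
      · have hx1 : 1 ≤ ‖x‖ := by
          have hne : x ≠ 0 := hx
          obtain ⟨i, hi⟩ : ∃ i, x i ≠ 0 := by
            by_contra hcon
            push Not at hcon
            exact hne (funext hcon)
          refine le_trans ?_ (norm_le_pi_norm x i)
          rw [Int.norm_eq_abs]
          exact_mod_cast Int.one_le_abs hi
        have hw : rho ≤ ‖wx x t‖ := by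
          refine le_trans ?_ (wx_lower h1 h2 x)
          nlinarith
        have hwi : ‖wx x t‖⁻¹ ≤ rho⁻¹ := inv_anti₀ hρ0 hw
        constructor
        · rw [norm_div, norm_one, one_div]
          exact hwi
        · rw [norm_div, norm_pow, div_eq_mul_inv, ← inv_pow]
          refine mul_le_mul (by rw [hR]; linarith) ?_ (by positivity) hR0.le
          exact pow_le_pow_left₀ (by positivity) hwi 2
    unfold Tx
    have h8 := norm_add₃_le (a := 1 / (z - wx x t)) (b := 1 / wx x t) (c := z / wx x t ^ 2)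
    linarith [h7.1, h7.2]
  · have hlow := wx_lower h1 h2 x
    have h6 : 2 * R / rho < ‖x‖ := not_le.1 hxF
    have hx0 : 0 < ‖x‖ := lt_of_le_of_lt (by positivity) h6
    rw [div_lt_iff₀ hρ0] at h6
    have h5 : 2 * R ≤ ‖wx x t‖ := by linarith
    simp only [hu]
    rw [Set.indicator_of_notMem hxF, add_zero]
    refine (Tx_bound hR0 (by rw [hR]; linarith) h5).trans ?_
    have h8 : (‖wx x t‖ ^ 3)⁻¹ ≤ ((rho * ‖x‖) ^ 3)⁻¹ := by
      apply inv_anti₀ (by positivity)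
      exact pow_le_pow_left₀ (by positivity) hlow 3
    have h9 : ((rho * ‖x‖) ^ 3)⁻¹ = rho⁻¹ ^ 3 * ‖x‖ ^ (-3 : ℝ) := by
      rw [mul_pow, mul_inv, inv_pow, Real.rpow_neg hx0.le]
      norm_cast
    rw [h9] at h8
    calc 2 * R ^ 2 * (‖wx x t‖ ^ 3)⁻¹ ≤ 2 * R ^ 2 * (rho⁻¹ ^ 3 * ‖x‖ ^ (-3 : ℝ)) :=
          mul_le_mul_of_nonneg_left h8 (by positivity)
      _ = _ := by ring

lemma half_dist (k : ℤ) (t : ℂ) (h2 : 1 ≤ t.im) (x : Fin 2 → ℤ) :
    1 / 2 ≤ ‖(k : ℂ) + 1 / 2 - wx x t‖ := by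
  by_cases hx : x 0 = 0
  · have h3 : (k : ℂ) + 1 / 2 - wx x t = (((k : ℝ) + 1 / 2 - x 1 : ℝ) : ℂ) := by
      simp [wx, hx]
    rw [h3, Complex.norm_real, Real.norm_eq_abs]
    have h4 : ((k : ℝ) + 1 / 2 - x 1 : ℝ) = ((k - x 1 : ℤ) : ℝ) + 1 / 2 := by
      push_cast; ring
    rw [h4]
    rcases le_or_gt 0 (k - x 1) with h | h
    · have h5 : (0 : ℝ) ≤ ((k - x 1 : ℤ) : ℝ) := by exact_mod_cast h
      exact le_trans (by linarith) (le_abs_self _)
    · have h5 : ((k - x 1 : ℤ) : ℝ) ≤ -1 := by exact_mod_cast (by omega : k - x 1 ≤ -1)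
      refine le_trans ?_ (neg_le_abs _)
      linarith
  · have h3 : |((k : ℂ) + 1 / 2 - wx x t).im| ≤ ‖(k : ℂ) + 1 / 2 - wx x t‖ :=
      Complex.abs_im_le_norm _
    refine le_trans ?_ h3
    have h4 : ((k : ℂ) + 1 / 2 - wx x t).im = -((x 0 : ℝ) * t.im) := by
      simp [wx]
    rw [h4, abs_neg, abs_mul]
    have h5 : (1 : ℝ) ≤ |(x 0 : ℝ)| := by exact_mod_cast Int.one_le_abs hx
    have h6 : 1 ≤ |t.im| := h2.trans (le_abs_self _)
    nlinarith

lemma h1_bound : ∃ C : ℝ, ∀ t : ℂ, |t.re| ≤ 1 → 1 ≤ t.im → ‖h1 t‖ ≤ C := by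
  obtain ⟨C₁, hC₁⟩ := zeta_bound (1 / 2) (fun t ht x => by
    have := half_dist 0 t ht x
    simpa using this)
  obtain ⟨C₂, hC₂⟩ := zeta_bound (1 / 2 + 1) (fun t ht x => by
    have := half_dist 1 t ht x
    push_cast at this
    rwa [add_comm (1 : ℂ) (1 / 2)] at this)
  refine ⟨C₂ + C₁, fun t a b => ?_⟩
  unfold h1 eta
  rw [LC_ω₁]
  exact (norm_sub_le _ _).trans (add_le_add (hC₂ t a b) (hC₁ t a b))

lemma shift_lat {t : ℂ} (ht : 0 < t.im) (n : ℤ) (z : ℂ) :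
    z ∈ (LC (t + n)).lattice ↔ 1 * z ∈ (LC t).lattice := by
  have ht' : 0 < (t + n).im := by simpa using ht
  rw [one_mul, mem_LC ht, mem_LC ht']
  constructor
  · rintro ⟨a, b, h⟩
    refine ⟨a + b * n, b, ?_⟩
    rw [← h]; push_cast; ring
  · rintro ⟨a, b, h⟩
    refine ⟨a - b * n, b, ?_⟩
    rw [← h]; push_cast; ring

theorem task_C1 : Pool.Agent.Y685.S_C1 := by
  obtain ⟨C₂, hC₂⟩ := G_bound 4 (by norm_num)
  obtain ⟨C₃, hC₃⟩ := G_bound 6 (by norm_num)
  obtain ⟨C, hC⟩ := h1_bound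
  refine ⟨max (60 * C₂) (max (140 * C₃) C), fun t ht => ?_⟩
  set s : ℂ := t + ((-⌊t.re⌋ : ℤ) : ℂ) with hs
  have hsim : s.im = t.im := by simp [hs]
  have hsre : |s.re| ≤ 1 := by
    have h1 : s.re = Int.fract t.re := by
      rw [← Int.self_sub_floor, hs, Complex.add_re, Complex.intCast_re]
      push_cast
      ring
    rw [h1, abs_of_nonneg (Int.fract_nonneg _)]
    exact (Int.fract_lt_one _).le
  have hs1 : 1 ≤ s.im := by rw [hsim]; exact ht
  have ht0 : 0 < t.im := by linarith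
  have hl := shift_lat ht0 (-⌊t.re⌋)
  rw [← hs] at hl
  have e2 : (LC t).g₂ = (LC s).g₂ := by
    have := Pool.Agent.Y119.MD.g2_scale one_ne_zero hl
    simpa using this
  have e3 : (LC t).g₃ = (LC s).g₃ := by
    have := Pool.Agent.Y119.MD.g3_scale one_ne_zero hl
    simpa using this
  have e1 : h1 t = h1 s := by
    have := Pool.Agent.Y119.MD.eta_scale one_ne_zero hl (l := 1)
      (Pool.Agent.Y685.H2.one_mem (by linarith))
    unfold h1
    simpa using this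
  refine ⟨?_, ?_, ?_⟩
  · rw [e2, PeriodPair.g₂, norm_mul]
    refine le_trans ?_ (le_max_left _ _)
    have := hC₂ s hsre hs1
    simpa using this
  · rw [e3, PeriodPair.g₃, norm_mul]
    refine le_trans ?_ ((le_max_left _ _).trans (le_max_right _ _))
    have := hC₃ s hsre hs1
    simpa using this
  · rw [e1]
    exact (hC s hsre hs1).trans ((le_max_right _ _).trans (le_max_right _ _))

end Pool.Agent.Y119.IC
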