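import Pool.Agent.H73.G.R8.Y685.Stm2

/-!
# Lower bounds near the cusp
-/

set_option autoImplicit false

open Filter
open scoped Topology

namespace Pool.Agent.Y119.IC

theorem task_C2 : Pool.Agent.Y685.S_C2 := by
  classical
  intro Φ hd hp hb hne
  obtain ⟨C, hC⟩ := hb
  let f : ℂ → ℂ := fun t => if 0 < t.im then Φ t else 0
  have hf : ∀ t : ℂ, 0 < t.im → f t = Φ t := fun t ht => if_pos ht
  have hper : Function.Periodic f ((1 : ℝ) : ℂ) := by
    intro t
    by_cases ht : 0 < t.im
    · have ht' : 0 < (t + ((1 : ℝ) : ℂ)).im := by simpa using ht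
      rw [hf _ ht, hf _ ht', Complex.ofReal_one]
      exact hp t ht
    · have ht' : ¬ 0 < (t + ((1 : ℝ) : ℂ)).im := by simpa using ht
      simp only [f, if_neg ht, if_neg ht']
  have hopen : IsOpen {t : ℂ | 0 < t.im} := isOpen_lt continuous_const Complex.continuous_im
  have hfd : ∀ t : ℂ, 0 < t.im → DifferentiableAt ℂ f t := by
    intro t ht
    refine (hd t ht).congr_of_eventuallyEq ?_
    filter_upwards [hopen.mem_nhds ht] with s hs
    exact hf s hs
  have hol : ∀ᶠ z in comap Complex.im atTop, DifferentiableAt ℂ f z :=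
    eventually_of_mem (preimage_mem_comap (Ioi_mem_atTop 0)) fun z hz => hfd z hz
  have hbdd : BoundedAtFilter (comap Complex.im atTop) f := by
    refine Asymptotics.IsBigO.of_bound C ?_
    filter_upwards [preimage_mem_comap (Ici_mem_atTop (1 : ℝ))] with z hz
    have h1 : 1 ≤ z.im := hz
    rw [hf z (by linarith)]
    simpa using hC z h1
  set g := Function.Periodic.cuspFunction 1 f with hg
  have han : AnalyticAt ℂ g 0 := by
    rw [Complex.analyticAt_iff_eventually_differentiableAt]
    have h1 := Function.Periodic.eventually_differentiableAt_cuspFunction_nhds_ne_zero one_pos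
      hper hol
    rw [eventually_nhdsWithin_iff] at h1
    filter_upwards [h1] with z hz
    by_cases h0 : z = 0
    · rw [h0]
      exact Function.Periodic.differentiableAt_cuspFunction_zero one_pos hper hol hbdd
    · exact hz h0
  have hq : Tendsto (Function.Periodic.qParam 1) (comap Complex.im atTop) (𝓝[≠] 0) :=
    Function.Periodic.qParam_tendsto one_pos
  have hval : ∀ t, g (Function.Periodic.qParam 1 t) = f t :=
    Function.Periodic.eq_cuspFunction one_ne_zero hper
  rcases han.eventually_eq_zero_or_eventually_ne_zero with h0 | h0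
  · exfalso
    obtain ⟨t₁, ht₁, hne₁⟩ := hne
    have h1 : ∀ᶠ t in comap Complex.im atTop, f t = 0 := by
      filter_upwards [hq.eventually (eventually_nhdsWithin_of_eventually_nhds h0)] with t ht
      rw [← hval]; exact ht
    obtain ⟨s, hs, hs'⟩ := mem_comap.1 h1
    obtain ⟨T, hT⟩ := mem_atTop_sets.1 hs
    have h2 : ∀ t : ℂ, T ≤ t.im → f t = 0 := fun t ht => hs' (hT _ ht)
    have hconn : IsPreconnected {t : ℂ | 0 < t.im} :=
      (convex_halfSpace_im_gt 0).isPreconnected
    have hanf : AnalyticOnNhd ℂ f {t : ℂ | 0 < t.im} :=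
      DifferentiableOn.analyticOnNhd (fun t ht => (hfd t ht).differentiableWithinAt) hopen
    set z₀ : ℂ := ((max T 0 + 1 : ℝ) : ℂ) * Complex.I with hz₀
    have hz₀im : z₀.im = max T 0 + 1 := by simp [hz₀]
    have hz₀pos : 0 < z₀.im := by rw [hz₀im]; positivity
    have h3 : f =ᶠ[𝓝 z₀] 0 := by
      have ho : IsOpen {t : ℂ | T < t.im} := isOpen_lt continuous_const Complex.continuous_im
      have hmem : z₀ ∈ {t : ℂ | T < t.im} := by
        show T < z₀.im
        rw [hz₀im]
        linarith [le_max_left T 0]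
      filter_upwards [ho.mem_nhds hmem] with t ht
      exact h2 t (le_of_lt ht)
    have h4 := hanf.eqOn_zero_of_preconnected_of_eventuallyEq_zero hconn hz₀pos h3
    apply hne₁
    rw [← hf t₁ ht₁]
    exact h4 ht₁
  · obtain ⟨n, h, hh, hh0, hhe⟩ := han.exists_eventuallyEq_pow_smul_nonzero_iff.2 (by
      intro hcon
      have h1 : ∀ᶠ z in 𝓝[≠] (0 : ℂ), g z = 0 := eventually_nhdsWithin_of_eventually_nhds hcon
      obtain ⟨z, hz1, hz2⟩ := (h1.and h0).exists
      exact hz2 hz1)
    have h1 : ∀ᶠ z in 𝓝 (0 : ℂ), ‖h 0‖ / 2 < ‖h z‖ := by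
      have hpos : 0 < ‖h 0‖ := norm_pos_iff.2 hh0
      exact hh.continuousAt.norm.eventually (lt_mem_nhds (by linarith))
    have h2 : ∀ᶠ t in comap Complex.im atTop,
        ‖h 0‖ / 2 * ‖Function.Periodic.qParam 1 t‖ ^ n ≤ ‖f t‖ := by
      filter_upwards [hq.eventually (eventually_nhdsWithin_of_eventually_nhds (h1.and hhe))]
        with t ht
      rw [← hval, ht.2, sub_zero, smul_eq_mul, norm_mul, norm_pow, mul_comm]
      exact mul_le_mul_of_nonneg_left ht.1.le (by positivity)
    obtain ⟨s, hs, hs'⟩ := mem_comap.1 h2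
    obtain ⟨T, hT⟩ := mem_atTop_sets.1 hs
    refine ⟨‖h 0‖ / 2, 2 * Real.pi * n, max T 1, by have := norm_pos_iff.2 hh0; positivity,
      fun t ht => ?_⟩
    have h3 : ‖h 0‖ / 2 * ‖Function.Periodic.qParam 1 t‖ ^ n ≤ ‖f t‖ :=
      hs' (hT _ ((le_max_left _ _).trans ht))
    have ht0 : 0 < t.im := lt_of_lt_of_le one_pos ((le_max_right _ _).trans ht)
    rw [hf t ht0, Function.Periodic.norm_qParam, ← Real.exp_nat_mul] at h3
    refine le_trans (le_of_eq ?_) h3
    congr 2
    ring

end Pool.Agent.Y119.IC
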