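import Pool.Agent.H73.G.R8.Y685.Stm2

/-!
# The holomorphic implicit function theorem for two variables
-/

set_option autoImplicit false

open Filter
open scoped Topology

namespace Pool.Agent.Y119.IC

/-- the map `(x, y) ↦ (x, a x + b y)` -/
noncomputable def eqv (a b : ℂ) (hb : b ≠ 0) : (ℂ × ℂ) ≃L[ℂ] (ℂ × ℂ) :=
  ContinuousLinearEquiv.equivOfInverse
    ((ContinuousLinearMap.fst ℂ ℂ ℂ).prod
      (a • ContinuousLinearMap.fst ℂ ℂ ℂ + b • ContinuousLinearMap.snd ℂ ℂ ℂ))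
    ((ContinuousLinearMap.fst ℂ ℂ ℂ).prod
      ((-(a / b)) • ContinuousLinearMap.fst ℂ ℂ ℂ + b⁻¹ • ContinuousLinearMap.snd ℂ ℂ ℂ))
    (fun q => by
      ext
      · simp
      · simp
        field_simp
        ring)
    (fun q => by
      ext
      · simp
      · simp
        field_simp
        ring)

theorem strictG {f : ℂ → ℂ → ℂ} {q : ℂ × ℂ} (hf : Pool.Agent.Y685.H2.SH f q)
    (hd : deriv (f q.1) q.2 ≠ 0) :
    HasStrictFDerivAt (fun q : ℂ × ℂ => (q.1, f q.1 q.2))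
      (eqv (deriv (fun t => f t q.2) q.1) (deriv (f q.1) q.2) hd : (ℂ × ℂ) →L[ℂ] (ℂ × ℂ)) q :=
  hasStrictFDerivAt_fst.prodMk hf.strict

theorem task_I : Pool.Agent.Y685.S_I := by
  intro f p hf h0 hd
  have hG := strictG hf hd
  set G : ℂ × ℂ → ℂ × ℂ := fun q => (q.1, f q.1 q.2) with hGdef
  set Ψ := hG.toOpenPartialHomeomorph G with hΨ
  have hΨc : ∀ q, Ψ q = G q := fun q => by rw [hΨ, hG.toOpenPartialHomeomorph_coe]
  have hps : p ∈ Ψ.source := hG.mem_toOpenPartialHomeomorph_source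
  have hGp : G p = (p.1, 0) := by simp only [hGdef, h0]
  have hpt : (p.1, (0 : ℂ)) ∈ Ψ.target := by
    rw [← hGp, ← hΨc]; exact Ψ.map_source hps
  have hsp : Ψ.symm (p.1, 0) = p := by
    rw [← hGp, ← hΨc]; exact Ψ.left_inv hps
  have hc0 : ContinuousAt (fun t : ℂ => (t, (0 : ℂ))) p.1 := by fun_prop
  have hct : ContinuousAt (fun t : ℂ => Ψ.symm (t, 0)) p.1 :=
    ContinuousAt.comp (g := Ψ.symm) (f := fun t : ℂ => (t, (0 : ℂ)))
      (Ψ.symm.continuousAt hpt) hc0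
  have htar : ∀ᶠ t in 𝓝 p.1, (t, (0 : ℂ)) ∈ Ψ.target :=
    hc0.eventually (Ψ.open_target.mem_nhds hpt)
  have hval : ∀ t : ℂ, (t, (0 : ℂ)) ∈ Ψ.target →
      (Ψ.symm (t, 0)).1 = t ∧ f t (Ψ.symm (t, 0)).2 = 0 := by
    intro t ht
    have h1 := Ψ.right_inv ht
    rw [hΨc] at h1
    simp only [hGdef, Prod.mk.injEq] at h1
    refine ⟨h1.1, ?_⟩
    have := h1.2
    rwa [h1.1] at this
  refine ⟨fun t => (Ψ.symm (t, 0)).2, ?_, ?_, ?_, ?_⟩
  · show (Ψ.symm (p.1, 0)).2 = p.2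
    rw [hsp]
  · have hgood : ∀ᶠ q in 𝓝 p, Pool.Agent.Y685.H2.SH f q ∧ deriv (f q.1) q.2 ≠ 0 :=
      hf.eventually.and (hf.cont_d2.eventually_ne hd)
    rw [← hsp] at hgood
    have hgood' := hct.eventually hgood
    have hdiff : ∀ᶠ t in 𝓝 p.1, DifferentiableAt ℂ (fun t => (Ψ.symm (t, 0)).2) t := by
      filter_upwards [hgood', htar] with t ht1 ht2
      have h1 := strictG ht1.1 ht1.2
      have h3 : G = (Ψ : ℂ × ℂ → ℂ × ℂ) := (funext hΨc).symm
      have h2 := h1.hasFDerivAt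
      change HasFDerivAt G _ _ at h2
      rw [h3] at h2
      have h4 := Ψ.hasFDerivAt_symm ht2 h2
      have h5 : DifferentiableAt ℂ (fun t : ℂ => (t, (0 : ℂ))) t := by fun_prop
      have h6 : DifferentiableAt ℂ (fun t : ℂ => Ψ.symm (t, 0)) t :=
        DifferentiableAt.comp (g := Ψ.symm) (f := fun t : ℂ => (t, (0 : ℂ))) t
          h4.differentiableAt h5
      exact h6.snd
    rw [Complex.analyticAt_iff_eventually_differentiableAt]
    exact hdiff
  · filter_upwards [htar] with t ht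
    exact (hval t ht).2
  · filter_upwards [Ψ.open_source.mem_nhds hps] with q hq hq0
    have h1 := Ψ.left_inv hq
    rw [hΨc] at h1
    simp only [hGdef, hq0] at h1
    rw [h1]

end Pool.Agent.Y119.IC
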